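import Mathlib

set_option autoImplicit false

namespace Pool.Agent.H65.OS

variable {V : Type*} {G : SimpleGraph V}

/-- `s` can be properly coloured with `q` colours. -/
def Col (G : SimpleGraph V) (s : Set V) (q : ℕ) : Prop :=
  ∃ c : V → ℕ, (∀ v ∈ s, c v < q) ∧ ∀ u ∈ s, ∀ v ∈ s, G.Adj u v → c u ≠ c v

theorem Col.mono {s t : Set V} {q r : ℕ} (h : Col G t r) (hs : s ⊆ t) (hq : r ≤ q) : Col G s q := by
  obtain ⟨c, h1, h2⟩ := h
  exact ⟨c, fun v hv => (h1 v (hs hv)).trans_le hq, fun u hu v hv => h2 u (hs hu) v (hs hv)⟩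

theorem col_empty (q : ℕ) : Col G (∅ : Set V) q := ⟨fun _ => 0, by simp, by simp⟩

theorem Col.union {s t : Set V} {a b : ℕ} (hs : Col G s a) (ht : Col G t b) :
    Col G (s ∪ t) (a + b) := by
  classical
  obtain ⟨c, h1, h2⟩ := hs
  obtain ⟨d, h3, h4⟩ := ht
  refine ⟨fun v => if v ∈ s then c v else a + d v, ?_, ?_⟩
  · intro v hv
    by_cases h : v ∈ s
    · simp only [h, if_true]; have := h1 v h; omega
    · simp only [h, if_false]; have := h3 v (hv.resolve_left h); omega
  · intro u hu v hv huv
    by_cases h : u ∈ s <;> by_cases h' : v ∈ s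
    · simp only [h, h', if_true]; exact h2 u h v h' huv
    · simp only [h, h', if_true, if_false]; have := h1 u h; omega
    · simp only [h, h', if_true, if_false]; have := h1 v h'; omega
    · simp only [h, h', if_false]
      have := h4 u (hu.resolve_left h) v (hv.resolve_left h') huv
      omega

theorem Col.union_sep {s t : Set V} {a : ℕ} (hs : Col G s a) (ht : Col G t a)
    (hst : ∀ u ∈ s, ∀ v ∈ t, ¬ G.Adj u v) : Col G (s ∪ t) a := by
  classical
  obtain ⟨c, h1, h2⟩ := hs
  obtain ⟨d, h3, h4⟩ := ht
  refine ⟨fun v => if v ∈ s then c v else d v, ?_, ?_⟩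
  · intro v hv
    by_cases h : v ∈ s
    · simp only [h, if_true]; exact h1 v h
    · simp only [h, if_false]; exact h3 v (hv.resolve_left h)
  · intro u hu v hv huv
    by_cases h : u ∈ s <;> by_cases h' : v ∈ s
    · simp only [h, h', if_true]; exact h2 u h v h' huv
    · exact absurd huv (hst u h v (hv.resolve_left h'))
    · exact absurd huv.symm (hst v h' u (hu.resolve_left h))
    · simp only [h, h', if_false]
      exact h4 u (hu.resolve_left h) v (hv.resolve_left h') huv

theorem col_iff {s : Set V} {q : ℕ} : Col G s q ↔ (G.induce s).Colorable q := by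
  classical
  constructor
  · rintro ⟨c, h1, h2⟩
    refine ⟨SimpleGraph.Coloring.mk (fun v => (⟨c v.1, h1 v.1 v.2⟩ : Fin q)) ?_⟩
    intro u v huv h
    exact h2 u.1 u.2 v.1 v.2 (by simpa using huv) (by simpa using h)
  · rintro ⟨f⟩
    refine ⟨fun v => if h : v ∈ s then (f ⟨v, h⟩).1 else 0, ?_, ?_⟩
    · intro v hv
      simp only [hv, dif_pos]
      exact (f ⟨v, hv⟩).2
    · intro u hu v hv huv
      simp only [hu, hv, dif_pos]
      intro h
      have h' : (G.induce s).Adj ⟨u, hu⟩ ⟨v, hv⟩ := by simpa using huv
      exact f.valid h' (Fin.ext h)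

/-! ### The blocks of a path -/

/-- the vertices of `p` in positions `i, ..., j` -/
def seg (p : ℕ → V) (i j : ℕ) : Set V := {v | ∃ a, i ≤ a ∧ a ≤ j ∧ p a = v}

theorem seg_mono {p : ℕ → V} {i j i' j' : ℕ} (h : i' ≤ i) (h' : j ≤ j') :
    seg p i j ⊆ seg p i' j' := by
  rintro v ⟨a, h1, h2, h3⟩
  exact ⟨a, h.trans h1, h2.trans h', h3⟩

open Classical in
/-- greedy blocks: (start of the block of position `i`, index of that block) -/
noncomputable def blk (G : SimpleGraph V) (p : ℕ → V) (c : ℕ) : ℕ → ℕ × ℕ
  | 0 => (0, 0)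
  | i + 1 => if Col G (seg p (blk G p c i).1 (i + 1)) c then blk G p c i
      else (i + 1, (blk G p c i).2 + 1)

theorem blk_spec (G : SimpleGraph V) (p : ℕ → V) (c : ℕ) (hc : 1 ≤ c) (j : ℕ) :
    (blk G p c j).1 ≤ j ∧ Col G (seg p (blk G p c j).1 j) c ∧
    (∀ i ≤ j, (blk G p c i).2 ≤ (blk G p c j).2) ∧
    (∀ i ≤ j, (blk G p c i).2 = (blk G p c j).2 → (blk G p c j).1 ≤ i) ∧
    (∀ i ≤ j, (blk G p c i).2 + 2 ≤ (blk G p c j).2 → ¬ Col G (seg p i j) c) ∧
    (∀ i ≤ j, (blk G p c j).1 ≤ i → (blk G p c i).2 = (blk G p c j).2) := by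
  have hone : ∀ i, Col G (seg p i i) c := by
    intro i
    refine ⟨fun _ => 0, fun _ _ => hc, ?_⟩
    rintro u ⟨a, h1, h2, rfl⟩ v ⟨b, h3, h4, rfl⟩ huv
    have : a = b := by omega
    subst this
    exact absurd huv (G.irrefl)
  induction j with
  | zero =>
    refine ⟨le_refl _, hone 0, ?_, ?_, ?_, ?_⟩
    · intro i hi; obtain rfl : i = 0 := by omega
      exact le_refl _
    · intro i hi _; simp [blk]
    · intro i hi h; simp [blk] at h
    · intro i hi _; obtain rfl : i = 0 := by omega
      rfl
  | succ j ih =>
    obtain ⟨h1, h2, h3, h4, h5, h6⟩ := ih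
    by_cases h : Col G (seg p (blk G p c j).1 (j + 1)) c
    · have e : blk G p c (j + 1) = blk G p c j := by simp [blk, h]
      rw [e]
      refine ⟨by omega, h, ?_, ?_, ?_, ?_⟩
      · intro i hi
        rcases Nat.lt_or_ge i (j + 1) with hlt | hge
        · exact h3 i (by omega)
        · obtain rfl : i = j + 1 := by omega
          rw [e]
      · intro i hi hh
        rcases Nat.lt_or_ge i (j + 1) with hlt | hge
        · exact h4 i (by omega) hh
        · omega
      · intro i hi hh
        rcases Nat.lt_or_ge i (j + 1) with hlt | hge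
        · intro hcol
          exact h5 i (by omega) hh (hcol.mono (seg_mono le_rfl (by omega)) le_rfl)
        · obtain rfl : i = j + 1 := by omega
          rw [e] at hh
          omega
      · intro i hi hh
        rcases Nat.lt_or_ge i (j + 1) with hlt | hge
        · exact h6 i (by omega) hh
        · obtain rfl : i = j + 1 := by omega
          rw [e]
    · have e : blk G p c (j + 1) = (j + 1, (blk G p c j).2 + 1) := by simp [blk, h]
      rw [e]
      refine ⟨le_refl _, hone _, ?_, ?_, ?_, ?_⟩
      · intro i hi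
        rcases Nat.lt_or_ge i (j + 1) with hlt | hge
        · have := h3 i (by omega); simp only; omega
        · obtain rfl : i = j + 1 := by omega
          rw [e]
      · intro i hi hh
        rcases Nat.lt_or_ge i (j + 1) with hlt | hge
        · have := h3 i (by omega); simp only at hh; omega
        · simp only; omega
      · intro i hi hh hcol
        simp only at hh
        rcases Nat.lt_or_ge i (j + 1) with hlt | hge
        · have h7 : i < (blk G p c j).1 := by
            by_contra hcon
            push Not at hcon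
            have := h6 i (by omega) hcon
            omega
          exact h (hcol.mono (seg_mono (by omega) le_rfl) le_rfl)
        · obtain rfl : i = j + 1 := by omega
          rw [e] at hh
          simp only at hh
          omega
      · intro i hi hh
        simp only at hh
        obtain rfl : i = j + 1 := by omega
        rw [e]

/-- If every segment of a path that a chord closes to an odd cycle is `c`-colourable, then the
vertex set of the path is `4 c`-colourable. -/
theorem path_col (G : SimpleGraph V) (p : ℕ → V) (m c : ℕ) (hc : 1 ≤ c)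
    (hinj : ∀ i < m, ∀ j < m, p i = p j → i = j)
    (hodd : ∀ i j, i < j → j < m → Even (j - i) → G.Adj (p i) (p j) → Col G (seg p i j) c) :
    Col G {v | ∃ i < m, p i = v} (4 * c) := by
  classical
  -- colouring of each block
  have hblk : ∀ j, ∃ f : V → ℕ, (∀ v ∈ seg p (blk G p c j).1 j, f v < c) ∧
      ∀ u ∈ seg p (blk G p c j).1 j, ∀ v ∈ seg p (blk G p c j).1 j, G.Adj u v → f u ≠ f v :=
    fun j => (blk_spec G p c hc j).2.1
  -- last position of each block (within `m`)
  let last : ℕ → ℕ := fun b => Nat.findGreatest (fun j => (blk G p c j).2 = b) (m - 1)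
  have hlast : ∀ i < m, i ≤ last (blk G p c i).2 ∧ last (blk G p c i).2 ≤ m - 1 ∧
      (blk G p c (last (blk G p c i).2)).2 = (blk G p c i).2 := by
    intro i hi
    refine ⟨Nat.le_findGreatest (by omega) rfl, Nat.findGreatest_le _, ?_⟩
    exact Nat.findGreatest_spec (P := fun j => (blk G p c j).2 = (blk G p c i).2) (m := i)
      (by omega) rfl
  choose f hf1 hf2 using hblk
  -- position of a vertex
  let pos : V → ℕ := fun v => if h : ∃ i < m, p i = v then h.choose else 0
  have hpos : ∀ i < m, pos (p i) = i := by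
    intro i hi
    have h : ∃ j < m, p j = p i := ⟨i, hi, rfl⟩
    have hp : pos (p i) = h.choose := by simp only [pos]; rw [dif_pos h]
    rw [hp]
    exact hinj _ h.choose_spec.1 _ hi h.choose_spec.2
  -- the colouring
  let B : ℕ → ℕ := fun i => (blk G p c i).2
  let col : V → ℕ := fun v => (B (pos v) % 2) * (2 * c) + (pos v % 2) * c + f (last (B (pos v))) v
  have hmem : ∀ i < m, p i ∈ seg p (blk G p c (last (B i))).1 (last (B i)) := by
    intro i hi
    obtain ⟨h1, h2, h3⟩ := hlast i hi
    have h4 := (blk_spec G p c hc (last (B i))).2.2.2.1 i h1 h3.symm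
    exact ⟨i, h4, h1, rfl⟩
  refine ⟨col, ?_, ?_⟩
  · rintro v ⟨i, hi, rfl⟩
    simp only [col, hpos i hi]
    have h1 := hf1 (last (B i)) (p i) (hmem i hi)
    have h2 : B i % 2 < 2 := Nat.mod_lt _ (by norm_num)
    have h3 : i % 2 < 2 := Nat.mod_lt _ (by norm_num)
    have h4 : (B i % 2) * (2 * c) ≤ 1 * (2 * c) := Nat.mul_le_mul_right _ (by omega)
    have h5 : (i % 2) * c ≤ 1 * c := Nat.mul_le_mul_right _ (by omega)
    omega
  · -- properness; first for `i < j`
    have key : ∀ i j, i < j → j < m → G.Adj (p i) (p j) → col (p i) ≠ col (p j) := by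
      intro i j hij hj hadj heq
      have hi : i < m := hij.trans hj
      simp only [col, hpos i hi, hpos j hj] at heq
      have g1 := hf1 (last (B i)) (p i) (hmem i hi)
      have g2 := hf1 (last (B j)) (p j) (hmem j hj)
      -- decode
      have d1 : B i % 2 = B j % 2 ∧ i % 2 = j % 2 ∧ f (last (B i)) (p i) = f (last (B j)) (p j) := by
        have a1 : B i % 2 < 2 := Nat.mod_lt _ (by norm_num)
        have a2 : i % 2 < 2 := Nat.mod_lt _ (by norm_num)
        have a3 : B j % 2 < 2 := Nat.mod_lt _ (by norm_num)
        have a4 : j % 2 < 2 := Nat.mod_lt _ (by norm_num)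
        generalize f (last (B i)) (p i) = x at *
        generalize f (last (B j)) (p j) = y at *
        generalize B i % 2 = b1 at *
        generalize B j % 2 = b2 at *
        generalize i % 2 = i1 at *
        generalize j % 2 = j1 at *
        interval_cases b1 <;> interval_cases b2 <;> interval_cases i1 <;> interval_cases j1 <;>
          simp at heq ⊢ <;> omega
      obtain ⟨d1, d2, d3⟩ := d1
      have heven : Even (j - i) := by
        rw [Nat.even_iff]; omega
      have hc1 := hodd i j hij hj heven hadj
      obtain ⟨s1, s2, s3, s4, s5, s6⟩ := blk_spec G p c hc j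
      have t1 := s3 i hij.le
      by_cases hB : B i = B j
      · rw [hB] at d3
        have m1 := hmem i hi
        rw [hB] at m1
        exact hf2 (last (B j)) (p i) m1 (p j) (hmem j hj) hadj d3
      · have : (blk G p c i).2 + 2 ≤ (blk G p c j).2 := by
          simp only [B] at hB d1
          omega
        exact s5 i hij.le this hc1
    rintro u ⟨i, hi, rfl⟩ v ⟨j, hj, rfl⟩ hadj
    rcases lt_trichotomy i j with h | h | h
    · exact key i j h hj hadj
    · subst h; exact absurd hadj (G.irrefl)
    · exact (key j i h hi hadj.symm).symm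

end Pool.Agent.H65.OS
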