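import Pool.Agent.H65.OS.Lists

set_option autoImplicit false

namespace Pool.Agent.H65.OS

variable {V : Type*} [Fintype V] [DecidableEq V] {G : SimpleGraph V}

open Classical in
/-- the neighbours of `v` -/
noncomputable def nb (G : SimpleGraph V) (v : V) : Finset V := Finset.univ.filter (fun x => G.Adj v x)

theorem mem_nb (v x : V) : x ∈ nb G v ↔ G.Adj v x := by simp [nb]

/-- `u` and `v` have at least `|W|` common neighbours outside `W` -/
def Lk (G : SimpleGraph V) (W : Finset V) (u v : V) : Prop :=
  W.card ≤ ((nb G u ∩ nb G v) \ W).card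

/-- A chain of vertices of `W`, consecutive ones adjacent or with many common neighbours outside
`W`, extends to a path. -/
theorem extend_chain (W : Finset V) : ∀ (L : List V), L.Nodup → (∀ v ∈ L, v ∈ W) →
    L.IsChain (fun u v => G.Adj u v ∨ Lk G W u v) →
    ∃ (P : List V) (X : Finset V), P.Nodup ∧ P.IsChain G.Adj ∧ (∀ x ∈ L, x ∈ P) ∧
      P.head? = L.head? ∧ (∀ x ∈ P, x ∈ L ∨ x ∈ X) ∧ Disjoint X W ∧ X.card + 1 ≤ L.length + 1 ∧
      (L ≠ [] → X.card + 1 ≤ L.length)
  | [], _, _, _ => ⟨[], ∅, List.nodup_nil, List.isChain_nil, by simp, rfl, by simp, by simp,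
      by simp, by simp⟩
  | [u], _, hW, _ => ⟨[u], ∅, List.nodup_singleton u, List.isChain_singleton u, by simp, rfl,
      by simp, by simp, by simp, by simp⟩
  | u :: v :: L, hn, hW, hc => by
    obtain ⟨P, X, h1, h2, h3, h4, h5, h6, h7, h8⟩ := extend_chain W (v :: L)
      (List.nodup_cons.1 hn).2 (fun x hx => hW x (List.mem_cons_of_mem _ hx)) hc.of_cons
    have h8' := h8 (List.cons_ne_nil _ _)
    obtain ⟨P', rfl⟩ : ∃ P', P = v :: P' := by
      match P, h4 with
      | [], h4 => simp at h4
      | x :: P', h4 =>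
        have : x = v := by simpa using h4
        exact ⟨P', by rw [this]⟩
    have huW : u ∈ W := hW u (List.mem_cons_self ..)
    have huX : u ∉ X := fun h => Finset.disjoint_left.1 h6 h huW
    have huP : u ∉ v :: P' := by
      intro h
      rcases h5 u h with h | h
      · exact (List.nodup_cons.1 hn).1 h
      · exact huX h
    have hlen : (u :: v :: L).length ≤ W.card := by
      have h9 := List.toFinset_card_of_nodup hn
      rw [← h9]
      exact Finset.card_le_card (fun x hx => hW x (List.mem_toFinset.1 hx))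
    rcases hc.rel with hadj | hlk
    · refine ⟨u :: v :: P', X, List.nodup_cons.2 ⟨huP, h1⟩, List.isChain_cons_cons.2 ⟨hadj, h2⟩, ?_,
        rfl, ?_, h6, ?_, ?_⟩
      · intro x hx
        rcases List.mem_cons.1 hx with rfl | hx
        · exact List.mem_cons_self ..
        · exact List.mem_cons_of_mem _ (h3 x hx)
      · intro x hx
        rcases List.mem_cons.1 hx with rfl | hx
        · exact Or.inl (List.mem_cons_self ..)
        · rcases h5 x hx with h | h
          · exact Or.inl (List.mem_cons_of_mem _ h)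
          · exact Or.inr h
      · simp only [List.length_cons] at h8' ⊢; omega
      · intro _; simp only [List.length_cons] at h8' ⊢; omega
    · -- choose a connector
      have hex : ∃ x ∈ (nb G u ∩ nb G v) \ W, x ∉ X := by
        by_contra hcon
        push Not at hcon
        have : ((nb G u ∩ nb G v) \ W).card ≤ X.card := Finset.card_le_card hcon
        have hlk' : W.card ≤ ((nb G u ∩ nb G v) \ W).card := hlk
        simp only [List.length_cons] at h8' hlen
        omega
      obtain ⟨x, hx, hxX⟩ := hex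
      rw [Finset.mem_sdiff, Finset.mem_inter, mem_nb, mem_nb] at hx
      obtain ⟨⟨hux, hvx⟩, hxW⟩ := hx
      have hxP : x ∉ v :: P' := by
        intro h
        rcases h5 x h with h | h
        · exact hxW (hW x (List.mem_cons_of_mem _ h))
        · exact hxX h
      have hux' : u ≠ x := hux.ne
      refine ⟨u :: x :: v :: P', insert x X, ?_, ?_, ?_, rfl, ?_, ?_, ?_, ?_⟩
      · refine List.nodup_cons.2 ⟨?_, List.nodup_cons.2 ⟨hxP, h1⟩⟩
        intro h
        rcases List.mem_cons.1 h with h | h
        · exact hux' h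
        · exact huP h
      · exact List.isChain_cons_cons.2 ⟨hux, List.isChain_cons_cons.2 ⟨hvx.symm, h2⟩⟩
      · intro y hy
        rcases List.mem_cons.1 hy with rfl | hy
        · exact List.mem_cons_self ..
        · exact List.mem_cons_of_mem _ (List.mem_cons_of_mem _ (h3 y hy))
      · intro y hy
        rcases List.mem_cons.1 hy with rfl | hy
        · exact Or.inl (List.mem_cons_self ..)
        · rcases List.mem_cons.1 hy with rfl | hy
          · exact Or.inr (Finset.mem_insert_self _ _)
          · rcases h5 y hy with h | h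
            · exact Or.inl (List.mem_cons_of_mem _ h)
            · exact Or.inr (Finset.mem_insert_of_mem h)
      · rw [Finset.disjoint_insert_left]; exact ⟨hxW, h6⟩
      · have := Finset.card_insert_le x X
        simp only [List.length_cons] at h8' ⊢; omega
      · intro _
        have := Finset.card_insert_le x X
        simp only [List.length_cons] at h8' ⊢; omega

/-! ### Independence number of a relation -/

open Classical in
/-- largest size of a subset of `S` no two members of which are related -/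
noncomputable def ind (T : V → V → Prop) (S : Finset V) : ℕ :=
  (S.powerset.filter (fun I => ∀ u ∈ I, ∀ v ∈ I, u ≠ v → ¬ T u v)).sup Finset.card

theorem le_ind (T : V → V → Prop) {S I : Finset V} (h : I ⊆ S)
    (h' : ∀ u ∈ I, ∀ v ∈ I, u ≠ v → ¬ T u v) : I.card ≤ ind T S := by
  unfold ind
  exact Finset.le_sup (f := Finset.card) (by simp only [Finset.mem_filter, Finset.mem_powerset]; exact ⟨h, h'⟩)

theorem ind_spec (T : V → V → Prop) (S : Finset V) :
    ∃ I ⊆ S, (∀ u ∈ I, ∀ v ∈ I, u ≠ v → ¬ T u v) ∧ I.card = ind T S := by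
  classical
  have hne : (S.powerset.filter (fun I => ∀ u ∈ I, ∀ v ∈ I, u ≠ v → ¬ T u v)).Nonempty :=
    ⟨∅, by simp⟩
  obtain ⟨I, hI, hmax⟩ := Finset.exists_mem_eq_sup _ hne Finset.card
  simp only [Finset.mem_filter, Finset.mem_powerset] at hI
  refine ⟨I, hI.1, hI.2, ?_⟩
  unfold ind
  rw [← hmax]

theorem ind_empty (T : V → V → Prop) : ind T (∅ : Finset V) = 0 := by
  obtain ⟨I, h1, _, h3⟩ := ind_spec T (∅ : Finset V)
  rw [← h3, Finset.subset_empty.1 h1, Finset.card_empty]

theorem ind_insert (T : V → V → Prop) (x : V) (S : Finset V) : ind T (insert x S) ≤ ind T S + 1 := by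
  obtain ⟨I, h1, h2, h3⟩ := ind_spec T (insert x S)
  rw [← h3]
  have h4 : (I.erase x).card ≤ ind T S := le_ind T (by
    intro y hy
    have := h1 (Finset.mem_of_mem_erase hy)
    rcases Finset.mem_insert.1 this with h | h
    · exact absurd h (Finset.ne_of_mem_erase hy)
    · exact h) (fun u hu v hv => h2 u (Finset.mem_of_mem_erase hu) v (Finset.mem_of_mem_erase hv))
  have h5 : I.card - 1 ≤ (I.erase x).card := Finset.pred_card_le_card_erase
  omega

theorem ind_add (T : V → V → Prop) (hT : ∀ u v, T u v → T v u) {A B S : Finset V} (hA : A ⊆ S)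
    (hB : B ⊆ S) (hAB : Disjoint A B) (hno : ∀ u ∈ A, ∀ v ∈ B, ¬ T u v) :
    ind T A + ind T B ≤ ind T S := by
  obtain ⟨I, h1, h2, h3⟩ := ind_spec T A
  obtain ⟨J, h4, h5, h6⟩ := ind_spec T B
  rw [← h3, ← h6, ← Finset.card_union_of_disjoint (Finset.disjoint_of_subset_left h1
    (Finset.disjoint_of_subset_right h4 hAB))]
  refine le_ind T (Finset.union_subset (h1.trans hA) (h4.trans hB)) ?_
  intro u hu v hv huv
  rcases Finset.mem_union.1 hu with hu | hu <;> rcases Finset.mem_union.1 hv with hv | hv
  · exact h2 u hu v hv huv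
  · exact hno u (h1 hu) v (h4 hv)
  · exact fun h => hno v (h1 hv) u (h4 hu) (hT _ _ h)
  · exact h5 u hu v hv huv

theorem lk_symm (W : Finset V) (u v : V) (h : Lk G W u v) : Lk G W v u := by
  unfold Lk at *
  rwa [Finset.inter_comm]

/-- A subset `S` of `W` is `(q * size (independence number of S))`-colourable. -/
theorem col_small (q : ℕ) (hpath : ∀ l : List V, l.Nodup → l.IsChain G.Adj → Col G {x | x ∈ l} q)
    (W : Finset V) (N : ℕ) : ∀ S : Finset V, S ⊆ W → ind (Lk G W) S ≤ N →
    Col G (S : Set V) (q * Nat.size (ind (Lk G W) S)) := by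
  induction N using Nat.strong_induction_on with
  | _ N ih =>
    intro S hSW hS
    rcases S.eq_empty_or_nonempty with rfl | ⟨s0, hs0⟩
    · refine (col_empty (G := G) _).mono ?_ le_rfl
      simp
    have hpos : 1 ≤ ind (Lk G W) S := by
      have := le_ind (Lk G W) (S := S) (I := {s0}) (by simpa using hs0) (by
        intro u hu v hv huv
        rw [Finset.mem_singleton] at hu hv
        exact absurd (hu.trans hv.symm) huv)
      simpa using this
    obtain ⟨A, B, P, hAB, hPn, hPc, hcov, hdis, hno⟩ :=
      exists_path_separator (fun u v => G.Adj u v ∨ Lk G W u v) (ind (Lk G W)) (ind_empty _)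
        (ind_insert _) S
    have hAS : A ⊆ S := fun v hv => (hcov v).2 (Or.inl hv)
    have hBS : B ⊆ S := fun v hv => (hcov v).2 (Or.inr (Or.inl hv))
    have hadd := ind_add (Lk G W) (lk_symm W) hAS hBS hdis
      (fun u hu v hv h => hno u hu v hv (Or.inr h))
    have hA2 : ind (Lk G W) A = ind (Lk G W) A := rfl
    have hmono : ∀ x y : ℕ, x ≤ y → q * Nat.size x ≤ q * Nat.size y :=
      fun x y h => Nat.mul_le_mul_left q (Nat.size_le_size h)
    have cA := (ih (ind (Lk G W) S / 2) (by omega) A (hAS.trans hSW) (by omega)).mono le_rfl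
      (hmono _ (ind (Lk G W) S / 2) (by omega))
    have cB := (ih (ind (Lk G W) S / 2) (by omega) B (hBS.trans hSW) (by omega)).mono le_rfl
      (hmono _ (ind (Lk G W) S / 2) (by omega))
    have cAB := cA.union_sep cB (by
      intro u hu v hv huv; exact hno u (by simpa using hu) v (by simpa using hv) (Or.inl huv))
    obtain ⟨P', X, h1, h2, h3, -⟩ := extend_chain (G := G) W P hPn
      (fun v hv => hSW ((hcov v).2 (Or.inr (Or.inr hv)))) hPc
    have cP := hpath P' h1 h2
    refine (cP.union cAB).mono ?_ ?_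
    · intro v hv
      rcases (hcov v).1 (by simpa using hv) with h | h | h
      · exact Or.inr (Or.inl (by simpa using h))
      · exact Or.inr (Or.inr (by simpa using h))
      · exact Or.inl (h3 v h)
    · rw [size_half _ hpos]
      apply le_of_eq
      ring

/-- counting pairs: `3 ∑ |N v| ≤ ∑ |N u ∩ N v| + 2 n` -/
theorem count_pairs (I : Finset V) :
    3 * ∑ v ∈ I, (nb G v).card ≤ (∑ u ∈ I, ∑ v ∈ I, (nb G u ∩ nb G v).card) + 2 * Fintype.card V := by
  classical
  have h1 : ∑ v ∈ I, (nb G v).card = ∑ x : V, (I.filter (fun v => x ∈ nb G v)).card := by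
    simp only [Finset.card_eq_sum_ones, Finset.sum_filter]
    rw [Finset.sum_comm]
    refine Finset.sum_congr rfl fun v _ => ?_
    rw [← Finset.sum_filter]
    congr 1
    ext x; simp
  have h2 : ∑ u ∈ I, ∑ v ∈ I, (nb G u ∩ nb G v).card =
      ∑ x : V, (I.filter (fun v => x ∈ nb G v)).card * (I.filter (fun v => x ∈ nb G v)).card := by
    have : ∀ u v : V, (nb G u ∩ nb G v).card =
        ∑ x : V, (if x ∈ nb G u then 1 else 0) * (if x ∈ nb G v then 1 else 0) := by
      intro u v
      have e : nb G u ∩ nb G v = Finset.univ.filter (fun x => x ∈ nb G u ∧ x ∈ nb G v) := by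
        ext; simp
      rw [e, Finset.card_filter]
      refine Finset.sum_congr rfl fun x _ => ?_
      by_cases h1 : x ∈ nb G u <;> by_cases h2 : x ∈ nb G v <;> simp [h1, h2]
    simp only [this]
    have h3 : ∀ u ∈ I, ∑ v ∈ I, ∑ x : V, (if x ∈ nb G u then 1 else 0) *
        (if x ∈ nb G v then 1 else 0) = ∑ x : V, ∑ v ∈ I, (if x ∈ nb G u then 1 else 0) *
        (if x ∈ nb G v then 1 else 0) := fun u _ => Finset.sum_comm
    rw [Finset.sum_congr rfl h3, Finset.sum_comm]
    refine Finset.sum_congr rfl fun x _ => ?_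
    rw [Finset.card_eq_sum_ones, Finset.sum_filter, Finset.sum_mul_sum]
  rw [h1, h2]
  have h4 : 2 * Fintype.card V = ∑ _x : V, 2 := by simp [mul_comm]
  rw [h4, Finset.mul_sum, ← Finset.sum_add_distrib]
  refine Finset.sum_le_sum fun x _ => ?_
  generalize (I.filter (fun v => x ∈ nb G v)).card = m
  rcases Nat.lt_or_ge m 3 with h | h
  · interval_cases m <;> norm_num
  · nlinarith

/-- In a graph with large minimum degree a small set has small independence number with respect to
the relation `Lk`. -/
theorem ind_le (a d : ℕ) (ha : 1 ≤ a) (hd : ∀ v, d ≤ (nb G v).card)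
    (had : 2 * Fintype.card V ≤ (a + 1) * d) (W : Finset V)
    (hW : W.card * (a * (a + 1)) ≤ Fintype.card V) :
    ind (Lk G W) W ≤ a := by
  classical
  by_contra hcon
  push Not at hcon
  obtain ⟨I0, hI0, hI1, hI2⟩ := ind_spec (Lk G W) W
  obtain ⟨I, hII, hIc⟩ := Finset.exists_subset_card_eq (s := I0) (n := a + 1) (by omega)
  have hIW : I ⊆ W := hII.trans hI0
  have hind : ∀ u ∈ I, ∀ v ∈ I, u ≠ v → (nb G u ∩ nb G v).card + 1 ≤ 2 * W.card := by
    intro u hu v hv huv
    have h1 := hI1 u (hII hu) v (hII hv) huv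
    unfold Lk at h1
    push Not at h1
    have h2 : (nb G u ∩ nb G v).card ≤ ((nb G u ∩ nb G v) \ W).card + W.card := by
      rw [Finset.card_sdiff_add_card]
      exact Finset.card_le_card Finset.subset_union_left
    omega
  have hcount := count_pairs (G := G) I
  have hlow : (a + 1) * d ≤ ∑ v ∈ I, (nb G v).card := by
    calc (a + 1) * d = ∑ _v ∈ I, d := by simp [hIc]
      _ ≤ _ := Finset.sum_le_sum fun v _ => hd v
  have hsplit : ∑ u ∈ I, ∑ v ∈ I, (nb G u ∩ nb G v).card ≤
      (∑ u ∈ I, (nb G u).card) + ∑ _u ∈ I, a * (2 * W.card - 1) := by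
    rw [← Finset.sum_add_distrib]
    refine Finset.sum_le_sum fun u hu => ?_
    rw [← Finset.add_sum_erase _ _ hu, Finset.inter_self]
    refine Nat.add_le_add_left ?_ _
    calc ∑ v ∈ I.erase u, (nb G u ∩ nb G v).card ≤ ∑ _v ∈ I.erase u, (2 * W.card - 1) := by
          refine Finset.sum_le_sum fun v hv => ?_
          have := hind u hu v (Finset.mem_of_mem_erase hv) (Finset.ne_of_mem_erase hv).symm
          omega
      _ = a * (2 * W.card - 1) := by
          rw [Finset.sum_const, Finset.card_erase_of_mem hu, hIc, smul_eq_mul]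
          simp
  rw [Finset.sum_const, hIc, smul_eq_mul] at hsplit
  have hWpos : 1 ≤ W.card := by
    have := Finset.card_le_card hIW
    omega
  obtain ⟨w, hw⟩ : ∃ w, W.card = w + 1 := ⟨W.card - 1, by omega⟩
  rw [hw] at hsplit hW
  have e1 : 2 * (w + 1) - 1 = 2 * w + 1 := by omega
  rw [e1] at hsplit
  generalize ∑ v ∈ I, (nb G v).card = σ at *
  generalize ∑ u ∈ I, ∑ v ∈ I, (nb G u ∩ nb G v).card = τ at *
  -- 3σ ≤ τ + 2n, τ ≤ σ + (a+1) a (2w+1), σ ≥ (a+1) d ≥ 2n, (w+1) a (a+1) ≤ n
  have e2 : (a + 1) * (a * (2 * w + 1)) + a * (a + 1) = 2 * ((w + 1) * (a * (a + 1))) := by ring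
  have e3 : 1 ≤ a * (a + 1) := Nat.mul_pos ha (by omega)
  omega

end Pool.Agent.H65.OS
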