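import Pool.Agent.H65.OS.Dense
import Pool.Prelude.Def_F_c2511cc8

/-!
Lemmas for MP_fd0a9d_co: odd cycles spanning subgraphs of large chromatic number.
-/

set_option autoImplicit false

namespace Pool.Agent.H65.OS.Final

open Pool.Agent.H65.OS Nb10b39f9

/-- `G` has a path whose vertex set induces a subgraph of chromatic number at least `k`. -/
def HasHighChromaticPath {V : Type*} (G : SimpleGraph V) (k : ℕ) : Prop :=
  ∃ u v, ∃ p : G.Walk u v, p.IsPath ∧ (k : ℕ∞) ≤ (G.induce {x | x ∈ p.support}).chromaticNumber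

/-- The vertices of `G` are covered by `m` paths (which may share vertices). -/
def CoveredByPaths {V : Type*} (G : SimpleGraph V) (m : ℕ) : Prop :=
  ∃ (a b : Fin m → V) (p : ∀ i, G.Walk (a i) (b i)), (∀ i, (p i).IsPath) ∧
    ∀ v, ∃ i, v ∈ (p i).support

/-- If no odd cycle spans a subgraph of chromatic number at least `k` then the odd cycles span
`(k - 1)`-colourable subgraphs. -/
theorem odd_col {V : Type*} {G : SimpleGraph V} {k : ℕ} (hk : 2 ≤ k)
    (h : ¬ HasHighChromaticOddCycle G k) (u : V) (w : G.Walk u u) (hw : w.IsCycle)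
    (ho : Odd w.length) : Col G {x | x ∈ w.support} (k - 1) := by
  rw [col_iff, ← SimpleGraph.chromaticNumber_le_iff_colorable]
  by_contra hcon
  push Not at hcon
  refine h ⟨u, w, hw, ho, ?_⟩
  by_contra hlt
  push Not at hlt
  have : (k : ℕ∞) = ((k - 1 : ℕ) : ℕ∞) + 1 := by
    have : k = (k - 1) + 1 := by omega
    exact_mod_cast this
  rw [this, ENat.lt_natCast_add_one_iff] at hlt
  exact absurd hlt (not_le.2 hcon)

theorem path_col' {V : Type*} {G : SimpleGraph V} {k : ℕ} (hk : 2 ≤ k)
    (h : ¬ HasHighChromaticOddCycle G k) (l : List V) (hn : l.Nodup) (hc : l.IsChain G.Adj) :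
    Col G {x | x ∈ l} (4 * (k - 1)) :=
  list_col (k - 1) (by omega) (odd_col hk h) l hn hc

theorem chrom_le {V : Type*} {G : SimpleGraph V} {m : ℕ} (h : Col G (Set.univ : Set V) m) :
    G.chromaticNumber ≤ m := by
  obtain ⟨c, h1, h2⟩ := h
  rw [SimpleGraph.chromaticNumber_le_iff_colorable]
  refine ⟨SimpleGraph.Coloring.mk (fun v => (⟨c v, h1 v (Set.mem_univ v)⟩ : Fin m)) ?_⟩
  intro u v huv hcc
  exact h2 u (Set.mem_univ u) v (Set.mem_univ v) huv (by simpa using hcc)

theorem size_le_log (n : ℕ) : Nat.size n ≤ Nat.log 2 n + 1 := by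
  rw [Nat.size_le]
  exact Nat.lt_pow_succ_log_self (by norm_num) n

/-- the general bound -/
theorem log_bound (k : ℕ) (hk : 2 ≤ k) (n : ℕ) (G : SimpleGraph (Fin n))
    (h : ((4 * (k - 1) * (Nat.log 2 n + 1) : ℕ) : ℕ∞) < G.chromaticNumber) :
    HasHighChromaticOddCycle G k := by
  classical
  by_contra hno
  have hcol := col_of_paths (G := G) (4 * (k - 1)) 0 0 (path_col' hk hno)
    (by intro S hS
        rw [Finset.card_eq_zero.1 (Nat.le_zero.1 hS)]
        exact (col_empty (G := G) 0).mono (by simp) le_rfl) _ Finset.univ le_rfl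
  have := chrom_le (hcol.mono (s := Set.univ) (by simp) le_rfl)
  refine absurd (h.trans_le this) (not_lt.2 ?_)
  simp only [Finset.card_univ, Fintype.card_fin, Nat.add_zero, Nat.zero_add, Nat.div_one]
  exact_mod_cast Nat.mul_le_mul_left _ (size_le_log n)

/-- graphs with large minimum degree -/
theorem dense_bound (k : ℕ) (hk : 2 ≤ k) (n d t : ℕ) (G : SimpleGraph (Fin n))
    (ht : 2 * n ≤ t * d) (hd : ∀ v, d ≤ (G.neighborSet v).ncard)
    (h : ((12 * (k - 1) * (Nat.log 2 t + 1) : ℕ) : ℕ∞) < G.chromaticNumber) :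
    HasHighChromaticOddCycle G k := by
  classical
  by_contra hno
  rcases Nat.eq_zero_or_pos n with hn | hn
  · subst hn
    have : G.chromaticNumber ≤ (0 : ℕ) := chrom_le (⟨fun _ => 0, fun v => v.elim0, fun v => v.elim0⟩)
    have := h.trans_le this
    simp at this
  have hnb : ∀ v, (G.neighborSet v).ncard = (nb G v).card := by
    intro v
    rw [← Set.ncard_coe_finset]
    congr 1
    ext x
    simp [nb]
  have hd' : ∀ v, d ≤ (nb G v).card := fun v => (hnb v) ▸ hd v
  have hdn : d ≤ n := by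
    have := (hd' ⟨0, hn⟩).trans (Finset.card_le_univ _)
    simpa using this
  have ht2 : 2 ≤ t := by
    by_contra hcon
    have : t * d ≤ 1 * d := Nat.mul_le_mul_right d (by omega)
    omega
  obtain ⟨a, rfl⟩ : ∃ a, t = a + 1 := ⟨t - 1, by omega⟩
  have ha : 1 ≤ a := by omega
  have haa : 0 < a * (a + 1) := Nat.mul_pos ha (by omega)
  -- small sets
  have hsmall : ∀ S : Finset (Fin n), S.card ≤ n / (a * (a + 1)) →
      Col G (S : Set (Fin n)) (4 * (k - 1) * Nat.size a) := by
    intro S hS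
    have h1 : S.card * (a * (a + 1)) ≤ Fintype.card (Fin n) := by
      rw [Fintype.card_fin]
      exact (Nat.mul_le_mul_right _ hS).trans (Nat.div_mul_le_self _ _)
    have h2 := ind_le (G := G) a d ha hd' (by rwa [Fintype.card_fin]) S h1
    refine (col_small (G := G) (4 * (k - 1)) (path_col' hk hno) S _ S (Finset.Subset.refl S)
      le_rfl).mono le_rfl (Nat.mul_le_mul_left _ (Nat.size_le_size h2))
  have hcol := col_of_paths (G := G) (4 * (k - 1)) (n / (a * (a + 1))) (4 * (k - 1) * Nat.size a)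
    (path_col' hk hno) hsmall _ Finset.univ le_rfl
  have := chrom_le (hcol.mono (s := Set.univ) (by simp) le_rfl)
  refine absurd (h.trans_le this) (not_lt.2 ?_)
  simp only [Finset.card_univ, Fintype.card_fin]
  have e1 : Nat.size a ≤ Nat.log 2 (a + 1) + 1 :=
    (Nat.size_le_size (by omega)).trans (size_le_log (a + 1))
  have e2 : Nat.size (n / (n / (a * (a + 1)) + 1)) ≤ 2 * (Nat.log 2 (a + 1) + 1) := by
    rw [Nat.size_le]
    have f1 : n / (n / (a * (a + 1)) + 1) < (a + 1) * (a + 1) := by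
      rw [Nat.div_lt_iff_lt_mul (Nat.succ_pos _)]
      have f2 : n < a * (a + 1) * (n / (a * (a + 1)) + 1) := Nat.lt_mul_div_succ n haa
      have f3 : a * (a + 1) * (n / (a * (a + 1)) + 1) ≤
          (a + 1) * (a + 1) * (n / (a * (a + 1)) + 1) :=
        Nat.mul_le_mul_right _ (Nat.mul_le_mul_right _ (by omega))
      exact f2.trans_le f3
    have f4 : a + 1 < 2 ^ (Nat.log 2 (a + 1) + 1) := Nat.lt_pow_succ_log_self (by norm_num) _
    calc n / (n / (a * (a + 1)) + 1) < (a + 1) * (a + 1) := f1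
      _ ≤ 2 ^ (Nat.log 2 (a + 1) + 1) * 2 ^ (Nat.log 2 (a + 1) + 1) := Nat.mul_le_mul f4.le f4.le
      _ = 2 ^ (2 * (Nat.log 2 (a + 1) + 1)) := by rw [← pow_add]; congr 1; ring
  have e3 : 4 * (k - 1) * Nat.size (n / (n / (a * (a + 1)) + 1)) + 4 * (k - 1) * Nat.size a ≤
      12 * (k - 1) * (Nat.log 2 (a + 1) + 1) := by
    have g1 := Nat.mul_le_mul_left (4 * (k - 1)) e1
    have g2 := Nat.mul_le_mul_left (4 * (k - 1)) e2
    calc _ ≤ 4 * (k - 1) * (2 * (Nat.log 2 (a + 1) + 1)) + 4 * (k - 1) * (Nat.log 2 (a + 1) + 1) :=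
          Nat.add_le_add g2 g1
      _ = _ := by ring
  exact_mod_cast e3

/-- the number of colours when there is a cover by paths -/
theorem col_cover {V : Type*} {G : SimpleGraph V} (q : ℕ)
    (hpath : ∀ l : List V, l.Nodup → l.IsChain G.Adj → Col G {x | x ∈ l} q) (m : ℕ) :
    ∀ (L : Fin m → List V), (∀ i, (L i).Nodup) → (∀ i, (L i).IsChain G.Adj) →
      Col G {x | ∃ i, x ∈ L i} (q * m) := by
  induction m with
  | zero =>
    intro L _ _
    exact (col_empty (G := G) _).mono (by rintro x ⟨i, _⟩; exact i.elim0) le_rfl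
  | succ m ih =>
    intro L h1 h2
    have a1 := hpath (L 0) (h1 0) (h2 0)
    have a2 := ih (fun i => L i.succ) (fun i => h1 _) (fun i => h2 _)
    refine (a1.union a2).mono ?_ (by rw [Nat.mul_succ, Nat.add_comm])
    rintro x ⟨i, hi⟩
    refine Fin.cases (motive := fun i => x ∈ L i → _) ?_ ?_ i hi
    · intro h; exact Or.inl h
    · intro j h; exact Or.inr ⟨j, h⟩

theorem cover_bound (k : ℕ) (hk : 2 ≤ k) (n m : ℕ) (G : SimpleGraph (Fin n))
    (hc : CoveredByPaths G m) (h : ((4 * (k - 1) * m : ℕ) : ℕ∞) < G.chromaticNumber) :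
    HasHighChromaticOddCycle G k := by
  by_contra hno
  obtain ⟨a, b, p, hp, hcov⟩ := hc
  have h1 := col_cover (G := G) (4 * (k - 1)) (path_col' hk hno) m (fun i => (p i).support)
    (fun i => (hp i).support_nodup) (fun i => (p i).isChain_adj_support)
  have := chrom_le (h1.mono (s := Set.univ) (fun v _ => hcov v) le_rfl)
  exact absurd (h.trans_le this) (not_lt.2 le_rfl)

theorem path_of_oddCycle {V : Type*} {G : SimpleGraph V} {k : ℕ}
    (h : HasHighChromaticOddCycle G k) : HasHighChromaticPath G k := by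
  obtain ⟨v, p, hp, _, hk⟩ := h
  refine ⟨_, _, p.tail, hp.isPath_tail, ?_⟩
  have : {x | x ∈ p.tail.support} = {x | x ∈ p.support} := by
    ext x
    simp only [Set.mem_ofPred_eq]
    rw [SimpleGraph.Walk.support_tail_of_not_nil _ hp.not_nil]
    constructor
    · exact fun h => List.mem_of_mem_tail h
    · intro h
      rw [SimpleGraph.Walk.mem_support_iff] at h
      rcases h with h | h
      · subst h
        exact SimpleGraph.Walk.end_mem_tail_support hp.not_nil
      · exact h
  rw [this]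
  exact hk

theorem oddCycle_of_path {V : Type*} {G : SimpleGraph V} {k : ℕ} (hk : 2 ≤ k)
    (h : HasHighChromaticPath G (4 * (k - 1) + 1)) : HasHighChromaticOddCycle G k := by
  by_contra hno
  obtain ⟨u, v, p, hp, hh⟩ := h
  have := path_col' hk hno p.support hp.support_nodup p.isChain_adj_support
  rw [col_iff, ← SimpleGraph.chromaticNumber_le_iff_colorable] at this
  have := hh.trans this
  have h2 : 4 * (k - 1) + 1 ≤ 4 * (k - 1) := by exact_mod_cast this
  omega

end Pool.Agent.H65.OS.Final
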