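import Pool.Agent.H65.OS.Base

set_option autoImplicit false

namespace Pool.Agent.H65.OS

variable {V : Type*} {G : SimpleGraph V}

/-- A list closed by an edge gives a cycle. -/
theorem exists_cycle_of_list (l : List V) (hn : l.Nodup) (hc : l.IsChain G.Adj) (hne : l ≠ [])
    (h3 : 3 ≤ l.length) (hadj : G.Adj (l.getLast hne) (l.head hne)) :
    ∃ (u : V) (w : G.Walk u u), w.IsCycle ∧ w.length = l.length ∧
      {x | x ∈ w.support} = {x | x ∈ l} := by
  have hs := SimpleGraph.Walk.support_ofSupport (G := G) hne hc
  have hl := SimpleGraph.Walk.length_ofSupport (G := G) hne hc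
  have hp : (SimpleGraph.Walk.ofSupport l hne hc).IsPath := by
    rw [SimpleGraph.Walk.isPath_def, hs]; exact hn
  refine ⟨l.getLast hne, SimpleGraph.Walk.cons hadj (SimpleGraph.Walk.ofSupport l hne hc), ?_, ?_, ?_⟩
  · rw [SimpleGraph.Walk.cons_isCycle_iff]
    refine ⟨hp, fun hmem => ?_⟩
    have := hp.length_eq_one_of_mem_edges (by rwa [Sym2.eq_swap] at hmem)
    omega
  · rw [SimpleGraph.Walk.length_cons, hl]; omega
  · ext x
    simp only [SimpleGraph.Walk.support_cons, hs, Set.mem_ofPred_eq, List.mem_cons]
    constructor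
    · rintro (rfl | h)
      · exact List.getLast_mem hne
      · exact h
    · exact Or.inr

/-- If all odd cycles have `c`-colourable vertex sets, then all paths have `4 c`-colourable vertex
sets. -/
theorem list_col (c : ℕ) (hc : 1 ≤ c)
    (hodd : ∀ (u : V) (w : G.Walk u u), w.IsCycle → Odd w.length → Col G {x | x ∈ w.support} c)
    (l : List V) (hn : l.Nodup) (hch : l.IsChain G.Adj) : Col G {x | x ∈ l} (4 * c) := by
  classical
  rcases List.eq_nil_or_concat l with h | ⟨l', x0, h⟩
  · subst h
    exact (col_empty (G := G) (4 * c)).mono (by intro x hx; simp at hx) le_rfl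
  let p : ℕ → V := fun i => if h : i < l.length then l[i] else x0
  have hp : ∀ i (hi : i < l.length), p i = l[i] := fun i hi => by simp [p, hi]
  have hset : {x | x ∈ l} = {v | ∃ i < l.length, p i = v} := by
    ext x
    simp only [Set.mem_ofPred_eq]
    constructor
    · intro hx
      obtain ⟨i, hi, rfl⟩ := List.getElem_of_mem hx
      exact ⟨i, hi, hp i hi⟩
    · rintro ⟨i, hi, rfl⟩
      rw [hp i hi]
      exact List.getElem_mem hi
  rw [hset]
  refine path_col G p l.length c hc ?_ ?_
  · intro i hi j hj hij
    rw [hp i hi, hp j hj] at hij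
    exact (List.Nodup.getElem_inj_iff hn).1 hij
  · intro i j hij hj heven hadj
    -- the sublist
    set m : List V := (l.drop i).take (j - i + 1) with hm
    have hml : m.length = j - i + 1 := by
      simp only [hm, List.length_take, List.length_drop]; omega
    have hmn : m.Nodup := (hn.sublist (List.drop_sublist i l)).sublist (List.take_sublist _ _)
    have hmc : m.IsChain G.Adj := (hch.drop i).take (j - i + 1)
    have hne : m ≠ [] := by
      intro h0; rw [h0] at hml; simp at hml
    have hget : ∀ a (ha : a < m.length), m[a] = p (i + a) := by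
      intro a ha
      rw [hp (i + a) (by omega)]
      simp [hm]
    have hhead : m.head hne = p i := by
      rw [List.head_eq_getElem, hget]; simp
    have hlast : m.getLast hne = p j := by
      rw [List.getLast_eq_getElem, hget]
      congr 1
      omega
    obtain ⟨t, ht⟩ := heven
    obtain ⟨u, w, hw, hwl, hws⟩ := exists_cycle_of_list m hmn hmc hne (by omega)
      (by rw [hhead, hlast]; exact hadj.symm)
    have := hodd u w hw (by rw [hwl, hml, Nat.odd_iff]; omega)
    rw [hws] at this
    refine this.mono ?_ le_rfl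
    rintro v ⟨a, h1, h2, rfl⟩
    have ha : a - i < m.length := by omega
    have := hget (a - i) ha
    rw [Nat.add_sub_cancel' h1] at this
    rw [Set.mem_ofPred_eq, ← this]
    exact List.getElem_mem ha

/-! ### Path separators -/

/-- one run of a depth-first search until the unvisited part and the finished part have the same
measure -/
theorem dfs_aux [DecidableEq V] (R : V → V → Prop)
    (μ : Finset V → ℕ) (h0 : μ ∅ = 0) (hins : ∀ x s, μ (insert x s) ≤ μ s + 1) (N : ℕ) :
    ∀ (S U D : Finset V) (L : List V),
    2 * U.card + L.length ≤ N → μ D ≤ μ U → L.Nodup → L.IsChain R →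
    (∀ v, v ∈ S ↔ v ∈ U ∨ v ∈ D ∨ v ∈ L) → Disjoint U D → (∀ v ∈ L, v ∉ U) → (∀ v ∈ L, v ∉ D) →
    (∀ u ∈ U, ∀ v ∈ D, ¬ R u v) →
    ∃ (A B : Finset V) (P : List V), μ A = μ B ∧ P.Nodup ∧ P.IsChain R ∧
      (∀ v, v ∈ S ↔ v ∈ A ∨ v ∈ B ∨ v ∈ P) ∧ Disjoint A B ∧ (∀ u ∈ A, ∀ v ∈ B, ¬ R u v) := by
  have hstep : ∀ (U D : Finset V), μ D ≤ μ U → μ D ≠ μ U → U.Nonempty := by
    intro U D h1 h2
    by_contra h
    rw [Finset.not_nonempty_iff_eq_empty] at h
    subst h
    omega
  induction N with
  | zero =>
    intro S U D L hN hUD hLn hLc hS hd1 hd2 hd3 hno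
    have hU : U = ∅ := Finset.card_eq_zero.1 (by omega)
    subst hU
    exact ⟨∅, D, L, by omega, hLn, hLc, hS, hd1, hno⟩
  | succ N ih =>
    intro S U D L hN hUD hLn hLc hS hd1 hd2 hd3 hno
    by_cases heq : μ D = μ U
    · exact ⟨U, D, L, heq.symm, hLn, hLc, hS, hd1, hno⟩
    have hlt : μ D < μ U := lt_of_le_of_ne hUD heq
    by_cases hex : ∃ u ∈ U, (L = [] ∨ ∃ e L', L = e :: L' ∧ R u e)
    · -- extend the path
      obtain ⟨u, hu, hor⟩ := hex
      have hcard : (U.erase u).card + 1 = U.card := Finset.card_erase_add_one hu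
      have hμ : μ U ≤ μ (U.erase u) + 1 := by
        have := hins u (U.erase u)
        rwa [Finset.insert_erase hu] at this
      refine ih S (U.erase u) D (u :: L) (by simp only [List.length_cons]; omega) (by omega) ?_ ?_
        ?_ ?_ ?_ ?_ ?_
      · exact List.nodup_cons.2 ⟨fun h => hd2 u h hu, hLn⟩
      · rcases hor with h | ⟨e, L', h, hadj⟩
        · subst h; exact List.isChain_singleton _
        · subst h; exact List.isChain_cons_cons.2 ⟨hadj, hLc⟩
      · intro v
        rw [hS v]
        simp only [Finset.mem_erase, List.mem_cons]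
        by_cases hvu : v = u
        · subst hvu; simp [hu]
        · simp [hvu]
      · exact Finset.disjoint_of_subset_left (Finset.erase_subset _ _) hd1
      · intro v hv
        rcases List.mem_cons.1 hv with rfl | h
        · simp
        · intro h'; exact hd2 v h (Finset.mem_of_mem_erase h')
      · intro v hv
        rcases List.mem_cons.1 hv with rfl | h
        · exact fun h' => Finset.disjoint_left.1 hd1 hu h'
        · exact hd3 v h
      · intro a ha b hb
        exact hno a (Finset.mem_of_mem_erase ha) b hb
    · -- the end of the path is finished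
      obtain ⟨u0, hu0⟩ := hstep U D hUD heq
      match L, hN, hLn, hLc, hS, hd2, hd3, hex with
      | [], _, _, _, _, _, _, hex => exact absurd ⟨u0, hu0, Or.inl rfl⟩ hex
      | e :: L', hN, hLn, hLc, hS, hd2, hd3, hex =>
        have heD : e ∉ D := hd3 e (List.mem_cons_self ..)
        have heU : e ∉ U := hd2 e (List.mem_cons_self ..)
        refine ih S U (insert e D) L' (by simp only [List.length_cons] at hN; omega)
          (by have := hins e D; omega) (List.nodup_cons.1 hLn).2 hLc.of_cons
          ?_ ?_ ?_ ?_ ?_
        · intro v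
          rw [hS v]
          simp only [List.mem_cons, Finset.mem_insert]
          tauto
        · rw [Finset.disjoint_insert_right]; exact ⟨heU, hd1⟩
        · intro v hv; exact hd2 v (List.mem_cons_of_mem _ hv)
        · intro v hv h
          rcases Finset.mem_insert.1 h with rfl | h
          · exact (List.nodup_cons.1 hLn).1 hv
          · exact hd3 v (List.mem_cons_of_mem _ hv) h
        · intro a ha b hb hab
          rcases Finset.mem_insert.1 hb with rfl | h
          · exact hex ⟨a, ha, Or.inr ⟨_, L', rfl, hab⟩⟩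
          · exact hno a ha b h hab

theorem exists_path_separator [DecidableEq V] (R : V → V → Prop)
    (μ : Finset V → ℕ) (h0 : μ ∅ = 0) (hins : ∀ x s, μ (insert x s) ≤ μ s + 1) (S : Finset V) :
    ∃ (A B : Finset V) (P : List V), μ A = μ B ∧ P.Nodup ∧ P.IsChain R ∧
      (∀ v, v ∈ S ↔ v ∈ A ∨ v ∈ B ∨ v ∈ P) ∧ Disjoint A B ∧ (∀ u ∈ A, ∀ v ∈ B, ¬ R u v) := by
  refine dfs_aux R μ h0 hins (2 * S.card) S S ∅ [] (by simp) (by simp [h0]) List.nodup_nil
    List.isChain_nil ?_ ?_ ?_ ?_ ?_
  · intro v; simp
  · simp
  · simp
  · simp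
  · simp

theorem size_half (x : ℕ) (h : 1 ≤ x) : Nat.size x = Nat.size (x / 2) + 1 := by
  apply le_antisymm
  · rw [Nat.size_le, pow_succ]
    have := Nat.lt_size_self (x / 2)
    omega
  · rw [Nat.succ_le_iff, Nat.lt_size]
    rcases Nat.eq_zero_or_pos (Nat.size (x / 2)) with h0 | h0
    · rw [h0]; simpa using h
    · have h1 : 2 ^ (Nat.size (x / 2) - 1) ≤ x / 2 := Nat.lt_size.1 (by omega)
      have h2 : 2 ^ Nat.size (x / 2) = 2 ^ (Nat.size (x / 2) - 1) * 2 := by
        rw [← pow_succ]; congr 1; omega
      omega

/-- If all paths have `q`-colourable vertex sets and all sets of at most `w` vertices are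
`r`-colourable then `S` is `(q * size (|S| / (w + 1)) + r)`-colourable. -/
theorem col_of_paths [DecidableEq V] (q w r : ℕ)
    (hpath : ∀ l : List V, l.Nodup → l.IsChain G.Adj → Col G {x | x ∈ l} q)
    (hsmall : ∀ S : Finset V, S.card ≤ w → Col G (S : Set V) r) (N : ℕ) :
    ∀ S : Finset V, S.card ≤ N → Col G (S : Set V) (q * Nat.size (S.card / (w + 1)) + r) := by
  induction N using Nat.strong_induction_on with
  | _ N ih =>
    intro S hS
    by_cases hw : S.card ≤ w
    · refine (hsmall S hw).mono le_rfl ?_
      omega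
    push Not at hw
    obtain ⟨A, B, P, hAB, hPn, hPc, hcov, hdis, hno⟩ := exists_path_separator G.Adj
      Finset.card Finset.card_empty (fun x s => Finset.card_insert_le x s) S
    have hsub : A ∪ B ⊆ S := by
      intro v hv
      rcases Finset.mem_union.1 hv with h | h
      · exact (hcov v).2 (Or.inl h)
      · exact (hcov v).2 (Or.inr (Or.inl h))
    have hc1 : A.card + B.card ≤ S.card := by
      rw [← Finset.card_union_of_disjoint hdis]; exact Finset.card_le_card hsub
    have hA2 : A.card ≤ S.card / 2 := by omega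
    have hB2 : B.card ≤ S.card / 2 := by omega
    have hlt : S.card / 2 < N := by omega
    have hdiv : ∀ T : Finset V, T.card ≤ S.card / 2 →
        q * Nat.size (T.card / (w + 1)) + r ≤ q * Nat.size (S.card / 2 / (w + 1)) + r := by
      intro T hT
      have : Nat.size (T.card / (w + 1)) ≤ Nat.size (S.card / 2 / (w + 1)) :=
        Nat.size_le_size (Nat.div_le_div_right hT)
      have := Nat.mul_le_mul_left q this
      omega
    have cA := (ih _ hlt A hA2).mono le_rfl (hdiv A hA2)
    have cB := (ih _ hlt B hB2).mono le_rfl (hdiv B hB2)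
    have cAB := cA.union_sep cB (by
      intro u hu v hv; exact hno u (by simpa using hu) v (by simpa using hv))
    have cP := hpath P hPn hPc
    have hall := cP.union cAB
    refine hall.mono ?_ ?_
    · intro v hv
      rcases (hcov v).1 (by simpa using hv) with h | h | h
      · exact Or.inr (Or.inl (by simpa using h))
      · exact Or.inr (Or.inr (by simpa using h))
      · exact Or.inl h
    · have h1 : S.card / 2 / (w + 1) = S.card / (w + 1) / 2 := by
        rw [Nat.div_div_eq_div_mul, Nat.div_div_eq_div_mul, mul_comm]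
      have h2 : 1 ≤ S.card / (w + 1) := (Nat.one_le_div_iff (by omega)).2 (by omega)
      have h3 := size_half (S.card / (w + 1)) h2
      rw [h1, h3]
      apply le_of_eq
      ring

end Pool.Agent.H65.OS
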